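import Mathlib
import Pool.Agent.N238.CR.U
set_option autoImplicit false

/-!
# The extension estimate for functions randomised on coarse caps, with limited randomness

Let `d = n + 1 ≥ 3` and let `τ_k` be disjoint subsets of the cube, of side at most `δ`. A function
`f ∈ L^q` is randomised by multiplying it on `τ_k` by `u_k e(y_k · ξ)`, where the `u_k` are random
phases whose moments of order four vanish unless the indices pair up (such as independent signs,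
or lacunary characters of one parameter) and the `y_k` are random vectors which are pairwise
independent and have densities at most `A ρ^(-n)` (translations by vectors of size about `ρ`).
For `2 < q < 4`
`E ‖E f_ω‖_{L^q(|t| ≤ R)}^q ≤ C R^((4-q)/2) (δ^2 + min(δ, 1/ρ))^((n-1)(q-2)/2) ‖f‖_q^q`.
With `δ = ρ^(-1/2)` and `ρ = R^a`, `a = (4-q)/((n-1)(q-2))`, the right side is at most
`C ‖f‖_q^q`, and `a < 1` in the whole range `q > 2d/(d-1)` of the restriction conjecture.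
-/

namespace Pool.Agent.Results.MP_b7167f_an.CoarseRandomization

open MeasureTheory Set Complex ProbabilityTheory
open scoped ENNReal ComplexConjugate

/-- The extension operator of the surface `τ = ∑ c_j ξ_j^2` over the cube `[-1,1]^n`:
`E_c f(x,t) = ∫_{[-1,1]^n} f(ξ) exp(2πi(ξ·x + t ∑ c_j ξ_j^2)) dξ`. For `c = (1,...,1)` it is the
extension operator of the paraboloid. -/
noncomputable def ext {n : ℕ} (c : Fin n → ℝ) (f : (Fin n → ℝ) → ℂ) (y : (Fin n → ℝ) × ℝ) : ℂ :=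
  ∫ ξ in Icc (-1) 1, f ξ *
    cexp (2 * Real.pi * I * ((∑ j, ξ j * y.1 j + (∑ j, c j * ξ j ^ 2) * y.2 : ℝ) : ℂ))

/-- The function `∑_k u_k exp(2πi ξ·y_k) 1_{τ_k}(ξ) f(ξ)`. -/
noncomputable def modulate {n N : ℕ} (τ : Fin N → Set (Fin n → ℝ)) (u : Fin N → ℂ)
    (y : Fin N → Fin n → ℝ) (f : (Fin n → ℝ) → ℂ) (ξ : Fin n → ℝ) : ℂ :=
  ∑ k, u k * cexp (2 * Real.pi * I * ((∑ j, ξ j * y k j : ℝ) : ℂ)) * (τ k).indicator f ξ

open Pool.Agent.H153R4 Pool.Agent.N238.CR in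
/-- Let `n ≥ 2`, `d = n + 1`, `c ∈ ℝ^n` with non-zero entries, `2 < q < 4`, `A ≥ 0`. There is `C`
such that for all `R, δ, ρ > 0`, all pairwise disjoint measurable `τ_1, ..., τ_N` with
`|ξ_j - η_j| ≤ δ` for `ξ, η ∈ τ_k`, all measurable random `u_k` with `|u_k| ≤ 1` and
`E(u_i u_j conj(u_k) conj(u_l)) = 0` unless `i = j, k = l` or `i = k, j = l` or `i = l, j = k`,
all pairwise independent random vectors `y_k` with `P(y_k ∈ S) ≤ A ρ^(-n) |S|`, and all measurable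
`f` on the cube,
`E_u E_y ∫_{|t| ≤ R} |E_c f_{u,y}|^q ≤ C R^((4-q)/2) (δ^2 + min(δ,1/ρ))^((n-1)(q-2)/2) ∫ |f|^q`
with `f_{u,y} = ∑_k u_k exp(2πi ξ·y_k) 1_{τ_k} f`. -/
theorem result (n : ℕ) (hn : 2 ≤ n) (c : Fin n → ℝ) (hc : ∀ j, c j ≠ 0) (q A : ℝ) (hq2 : 2 < q)
    (hq4 : q < 4) (hA : 0 ≤ A) :
    ∃ C : ℝ, 0 < C ∧ ∀ R δ ρ : ℝ, 0 < R → 0 < δ → 0 < ρ →
      ∀ (N : ℕ) (τ : Fin N → Set (Fin n → ℝ)), (∀ k, MeasurableSet (τ k)) →
      (Pairwise fun k l => Disjoint (τ k) (τ l)) →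
      (∀ k, ∀ ξ ∈ τ k, ∀ η ∈ τ k, ∀ j, |ξ j - η j| ≤ δ) →
      ∀ (Ω₁ Ω₂ : Type) [MeasurableSpace Ω₁] [MeasurableSpace Ω₂] (P₁ : Measure Ω₁)
        (P₂ : Measure Ω₂) [IsProbabilityMeasure P₁] [IsProbabilityMeasure P₂]
        (u : Fin N → Ω₁ → ℂ) (y : Fin N → Ω₂ → Fin n → ℝ),
      (∀ k, Measurable (u k)) → (∀ k ω, ‖u k ω‖ ≤ 1) →
      (∀ i j k l, ¬((i = j ∧ k = l) ∨ (i = k ∧ j = l) ∨ (i = l ∧ j = k)) →
        ∫ ω, u i ω * u j ω * conj (u k ω) * conj (u l ω) ∂P₁ = 0) →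
      (∀ k, Measurable (y k)) → (∀ k l, k ≠ l → IndepFun (y k) (y l) P₂) →
      (∀ k S, MeasurableSet S → P₂ (y k ⁻¹' S) ≤ ENNReal.ofReal (A / ρ ^ n) * volume S) →
      ∀ f : (Fin n → ℝ) → ℂ, AEStronglyMeasurable f (volume.restrict (Icc (-1) 1)) →
        ∫⁻ ω₁, (∫⁻ ω₂, (∫⁻ z in {z : (Fin n → ℝ) × ℝ | |z.2| ≤ R},
          ‖ext c (modulate τ (fun k => u k ω₁) (fun k => y k ω₂) f) z‖ₑ ^ q) ∂P₂) ∂P₁ ≤
        ENNReal.ofReal (C * (R ^ ((4 - q) / 2) *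
          (δ ^ 2 + min δ (1 / ρ)) ^ (((n : ℝ) - 1) * (q - 2) / 2))) *
          ∫⁻ ξ in Icc (-1) 1, ‖f ξ‖ₑ ^ q := by
  obtain ⟨C, hC, h⟩ := rand_q hn c hc q A hq2 hq4 hA
  refine ⟨C, hC, ?_⟩
  intro R δ ρ hR hδ hρ N τ hτ hd hdm Ω₁ Ω₂ _ _ P₁ P₂ _ _ u y hu hu1 hp hy hi hde f hf
  have hX := XX_pos hδ hρ
  have hX' : δ ^ 2 + min δ (1 / ρ) = XX δ ρ := rfl
  have hexp : (XX δ ρ ^ (n - 1)) ^ ((q - 2) / 2) = XX δ ρ ^ (((n : ℝ) - 1) * (q - 2) / 2) := by
    rw [← Real.rpow_natCast, ← Real.rpow_mul hX.le, Nat.cast_sub (by omega)]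
    congr 1
    push_cast
    ring
  rw [hX', ← hexp]
  have hfac : 0 < C * (R ^ ((4 - q) / 2) * (XX δ ρ ^ (n - 1)) ^ ((q - 2) / 2)) := by positivity
  by_cases hfin : ∫⁻ ξ in Icc (-1) 1, ‖f ξ‖ₑ ^ q = ⊤
  · rw [hfin, ENNReal.mul_top (ENNReal.ofReal_pos.2 hfac).ne']
    exact le_top
  obtain ⟨f', hf'm, hf'⟩ := hf
  rw [Filter.EventuallyEq, ae_restrict_iff' measurableSet_Icc] at hf'
  set g : E n → ℂ := fun z => (Icc (-1 : Fin n → ℝ) 1).indicator f' z.ofLp with hg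
  have hgm : Measurable g := (hf'm.measurable.indicator measurableSet_Icc).comp ofLp_meas
  have hcube : ∀ z : E n, z ∉ cube n → z.ofLp ∉ Icc (-1 : Fin n → ℝ) 1 := by
    intro z hz h1
    apply hz
    intro j
    rw [abs_le]
    exact ⟨h1.1 j, h1.2 j⟩
  have hgs : ∀ z, z ∉ cube n → g z = 0 := fun z hz => indicator_of_notMem (hcube z hz) _
  have hfg : ∀ᵐ ξ : Fin n → ℝ, ξ ∈ Icc (-1 : Fin n → ℝ) 1 → f ξ = g (WithLp.toLp 2 ξ) := by
    filter_upwards [hf'] with ξ h1 h2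
    rw [h1 h2, hg]
    simp only
    rw [indicator_of_mem h2]
  have hgq : ∫⁻ z, ‖g z‖ₑ ^ q = ∫⁻ ξ in Icc (-1) 1, ‖f ξ‖ₑ ^ q := by
    have e1 := (PiLp.volume_preserving_toLp (Fin n)).lintegral_comp_emb
      (MeasurableEquiv.toLp 2 (Fin n → ℝ)).measurableEmbedding (fun z : E n => ‖g z‖ₑ ^ q)
    rw [← e1, ← lintegral_indicator measurableSet_Icc]
    apply lintegral_congr_ae
    filter_upwards [hfg] with ξ h1
    by_cases hξ : ξ ∈ Icc (-1 : Fin n → ℝ) 1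
    · rw [indicator_of_mem hξ, h1 hξ]
    · rw [indicator_of_notMem hξ, hg]
      simp only
      rw [indicator_of_notMem hξ, enorm_zero, ENNReal.zero_rpow_of_pos (by linarith)]
  have hgint : Integrable g := by
    have hvc : IsFiniteMeasure (volume.restrict (cube n)) :=
      ⟨by rw [Measure.restrict_apply_univ]; exact cube_vol n⟩
    have hind : (cube n).indicator g = g := by
      ext z
      by_cases hz : z ∈ cube n
      · rw [indicator_of_mem hz]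
      · rw [indicator_of_notMem hz, hgs z hz]
    have hLq : MemLp g (ENNReal.ofReal q) (volume.restrict (cube n)) := by
      refine ⟨hgm.aestronglyMeasurable, ?_⟩
      rw [eLpNorm_lt_top_iff_lintegral_rpow_enorm_lt_top
        (ENNReal.ofReal_pos.2 (by linarith)).ne' ENNReal.ofReal_ne_top,
        ENNReal.toReal_ofReal (by linarith)]
      refine (setLIntegral_le_lintegral _ _).trans_lt ?_
      rw [hgq]
      exact lt_top_iff_ne_top.2 hfin
    rw [← memLp_one_iff_integrable, ← hind, memLp_indicator_iff_restrict (cube_meas n)]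
    apply hLq.mono_exponent
    rw [← ENNReal.ofReal_one]
    exact ENNReal.ofReal_le_ofReal (by linarith)
  set Y : Fin N → Ω₂ → E n := fun k ω => WithLp.toLp 2 (y k ω) with hY
  have hYm : ∀ k, Measurable (Y k) := fun k =>
    (PiLp.volume_preserving_toLp (Fin n)).measurable.comp (hy k)
  have hYi : ∀ k l, k ≠ l → IndepFun (Y k) (Y l) P₂ := fun k l hkl =>
    (hi k l hkl).comp (PiLp.volume_preserving_toLp (Fin n)).measurable
      (PiLp.volume_preserving_toLp (Fin n)).measurable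
  have hYd : ∀ k S, MeasurableSet S → P₂ (Y k ⁻¹' S) ≤ ENNReal.ofReal (A / ρ ^ n) * volume S := by
    intro k S hS
    have h1 := hde k ((WithLp.toLp 2 : (Fin n → ℝ) → E n) ⁻¹' S)
      ((PiLp.volume_preserving_toLp (Fin n)).measurable hS)
    rw [(PiLp.volume_preserving_toLp (Fin n)).measure_preimage hS.nullMeasurableSet] at h1
    exact h1
  have hdt : Pairwise fun k l => Disjoint (tl τ k) (tl τ l) := by
    intro k l hkl
    rw [Set.disjoint_left]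
    intro z hz hz2
    exact Set.disjoint_left.1 (hd hkl) hz hz2
  have key := h R δ ρ hR hδ hρ (tl τ) (tl_meas hτ) hdt
    (fun k z hz w hw j => hdm k z.ofLp hz w.ofLp hw j) P₁ P₂ u hu hu1 hp Y hYm hYi hYd g hgm hgs
  rw [hgq] at key
  refine le_trans (le_of_eq ?_) key
  have hFm := (FF_meas c (tl_meas hτ) hu hYm hgm).enorm.pow_const q
  unfold nu
  rw [lintegral_prod _ hFm.aemeasurable]
  have h1 : Measurable fun p : (Ω₁ × Ω₂) × ℝ => ∫⁻ x, ‖FF c (tl τ) u Y g (p, x)‖ₑ ^ q :=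
    hFm.lintegral_prod_right'
  rw [lintegral_prod _ h1.aemeasurable]
  have h2 : Measurable fun p : Ω₁ × Ω₂ =>
      ∫⁻ t in Icc (-R) R, ∫⁻ x, ‖FF c (tl τ) u Y g ((p, t), x)‖ₑ ^ q :=
    h1.lintegral_prod_right'
  rw [lintegral_prod _ h2.aemeasurable]
  apply lintegral_congr
  intro ω₁
  apply lintegral_congr
  intro ω₂
  have h3 : Measurable fun p : ℝ × E n => ‖FF c (tl τ) u Y g (((ω₁, ω₂), p.1), p.2)‖ₑ ^ q :=
    hFm.comp (f := fun p : ℝ × E n => ((((ω₁, ω₂), p.1), p.2) : ((Ω₁ × Ω₂) × ℝ) × E n))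
      (by fun_prop)
  rw [← slab_int R (fun z t => ‖FF c (tl τ) u Y g (((ω₁, ω₂), t), z)‖ₑ ^ q) h3]
  apply lintegral_congr
  intro z
  congr 2
  exact ext_FF hτ c (fun k => u k ω₁) (fun k => y k ω₂) f hgm hgint hgs hfg z.1 z.2

end Pool.Agent.Results.MP_b7167f_an.CoarseRandomization
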